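import Pool.Agent.R834.HA.Prime

/-!
# Asymptotic consequences
-/

set_option autoImplicit false

namespace Pool.Agent.R834.HA

open Filter Matrix
open Pool.Agent.H160R3.Herm

theorem entropy_eq {n a b : ℕ} (hn : 0 < n) (hab : a + b = n) :
    (n : ℝ) * Real.binEntropy ((b : ℝ) / n) =
      n * Real.log n - a * Real.log a - b * Real.log b := by
  have hn' : (0 : ℝ) < n := by exact_mod_cast hn
  have h1 : 1 - (b : ℝ) / n = a / n := by
    rw [← hab]
    push_cast
    have : (a : ℝ) + b ≠ 0 := by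
      have : ((a + b : ℕ) : ℝ) ≠ 0 := by rw [hab]; exact hn'.ne'
      push_cast at this
      exact this
    field_simp
    ring
  have key : ∀ c : ℕ, (n : ℝ) * ((c : ℝ) / n * Real.log ((c : ℝ) / n)⁻¹) =
      c * Real.log n - c * Real.log c := by
    intro c
    rcases Nat.eq_zero_or_pos c with rfl | hc
    · simp
    · have hc' : (0 : ℝ) < c := by exact_mod_cast hc
      rw [Real.log_inv, Real.log_div hc'.ne' hn'.ne']
      field_simp
      ring
  have h2 : (n : ℝ) = a + b := by rw [← hab]; push_cast; ring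
  unfold Real.binEntropy
  rw [h1, mul_add, key, key]
  have h3 : (n : ℝ) * Real.log n = (a + b) * Real.log n := by rw [← h2]
  rw [h3]
  ring

theorem log_hermite (c : ℕ) : (c : ℝ) * Real.log (hermite c) =
    c * Real.log (ratio c) + c * Real.log c := by
  rcases Nat.eq_zero_or_pos c with rfl | hc
  · simp
  · have hc' : (0 : ℝ) < c := by exact_mod_cast hc
    rw [ratio, Real.log_div (hermite_pos hc).ne' hc'.ne']
    ring

theorem pow_self_pos (c : ℕ) : 0 < hermite c ^ c := by
  rcases Nat.eq_zero_or_pos c with rfl | hc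
  · simp
  · exact pow_pos (hermite_pos hc) c

theorem core {U : ℝ} (h : ∀ᶠ m : ℕ in atTop, ratio m ≤ U) {ε : ℝ} (hε : 0 < ε) :
    ∃ n0 : ℕ, 0 < n0 ∧ ∀ n ≥ n0, ∀ a b : ℕ, a + b = n → ∀ v t k : ℝ, 0 < t → 0 < k →
      t * n ≤ v → v ^ n ≤ k ^ 2 * (hermite a ^ a * hermite b ^ b) →
      Real.binEntropy ((b : ℝ) / n) ≤ Real.log (U / t) + 2 / n * Real.log k + ε := by
  obtain ⟨m0, hm0⟩ := eventually_atTop.1 h
  have hU : 0 < U := lt_of_lt_of_le (ratio_pos (Nat.succ_pos m0)) (hm0 _ (Nat.le_succ m0))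
  obtain ⟨N, hN⟩ := exists_nat_gt (2 * m0 * |Real.log U| / ε)
  refine ⟨N + 1, Nat.succ_pos N, ?_⟩
  intro n hn a b hab v t k ht hk htv hv
  have hn0 : 0 < n := lt_of_lt_of_le (Nat.succ_pos N) hn
  have hn' : (0 : ℝ) < n := by exact_mod_cast hn0
  have hv0 : 0 < v := lt_of_lt_of_le (by positivity) htv
  have hg : ∀ c : ℕ, (c : ℝ) * Real.log (hermite c) ≤
      c * Real.log U + m0 * |Real.log U| + c * Real.log c := by
    intro c
    rw [log_hermite]
    have h1 : (c : ℝ) * Real.log (ratio c) ≤ c * Real.log U + m0 * |Real.log U| := by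
      rcases le_or_gt m0 c with hc | hc
      · rcases Nat.eq_zero_or_pos c with rfl | hc0
        · simp
          positivity
        · have h2 := Real.log_le_log (ratio_pos hc0) (hm0 c hc)
          have h3 : (c : ℝ) * Real.log (ratio c) ≤ c * Real.log U :=
            mul_le_mul_of_nonneg_left h2 (Nat.cast_nonneg c)
          have h4 : 0 ≤ (m0 : ℝ) * |Real.log U| := by positivity
          linarith
      · have h2 : Real.log (ratio c) ≤ 0 := Real.log_nonpos (ratio_nonneg c) (ratio_le_one c)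
        have h3 : (c : ℝ) * Real.log (ratio c) ≤ 0 :=
          mul_nonpos_of_nonneg_of_nonpos (Nat.cast_nonneg c) h2
        have h4 : (c : ℝ) ≤ m0 := by exact_mod_cast hc.le
        have h5 : -|Real.log U| ≤ Real.log U := neg_abs_le _
        have h6 : (c : ℝ) * (-|Real.log U|) ≤ c * Real.log U :=
          mul_le_mul_of_nonneg_left h5 (Nat.cast_nonneg c)
        have h7 : (c : ℝ) * |Real.log U| ≤ m0 * |Real.log U| :=
          mul_le_mul_of_nonneg_right h4 (abs_nonneg _)
        linarith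
    linarith
  have h1 := Real.log_le_log (pow_pos hv0 n) hv
  have hpa := pow_self_pos a
  have hpb := pow_self_pos b
  rw [Real.log_pow, Real.log_mul (by positivity) (by positivity), Real.log_pow,
    Real.log_mul hpa.ne' hpb.ne', Real.log_pow, Real.log_pow] at h1
  have h2 : Real.log t + Real.log n ≤ Real.log v := by
    rw [← Real.log_mul ht.ne' hn'.ne']
    exact Real.log_le_log (by positivity) htv
  have h3 := mul_le_mul_of_nonneg_left h2 hn'.le
  have h4 := entropy_eq hn0 hab
  have h5 : (n : ℝ) = a + b := by rw [← hab]; push_cast; ring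
  have h6 : 2 * m0 * |Real.log U| ≤ ε * n := by
    have h7 : (N : ℝ) ≤ n := by
      have : N ≤ n := by omega
      exact_mod_cast this
    rw [div_lt_iff₀ hε] at hN
    nlinarith
  have h8 := hg a
  have h9 := hg b
  have h10 : (n : ℝ) * Real.log U = a * Real.log U + b * Real.log U := by
    rw [h5]; ring
  have h11 : (n : ℝ) * Real.binEntropy ((b : ℝ) / n) ≤
      n * (Real.log (U / t) + 2 / n * Real.log k + ε) := by
    rw [h4, Real.log_div hU.ne' ht.ne']
    have e : (n : ℝ) * (Real.log U - Real.log t + 2 / n * Real.log k + ε) =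
        n * Real.log U - n * Real.log t + 2 * Real.log k + ε * n := by
      field_simp
    rw [e]
    push_cast at h1
    linarith
  exact le_of_mul_le_mul_left h11 hn'

/-- `2 / n` times the logarithm of the index, for a prime order -/
noncomputable def glue (p : ℕ) (β : ℝ) : ℝ := 2 * min (1 - β) (β / (p - 1)) * Real.log p

/-- The entropy inequality with the constant `c` for all orthogonal splittings of sublattices. -/
def EntropyBound {n : ℕ} (A : Matrix (Fin n) (Fin n) ℝ) (c : ℝ) : Prop :=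
  ∀ (b : ℕ) (k : ℝ), SplitsInto A b k →
    Real.binEntropy ((b : ℝ) / n) ≤ c + 2 / n * Real.log k

theorem split_asym {U : ℝ} (h : ∀ᶠ m : ℕ in atTop, ratio m ≤ U) {ε : ℝ} (hε : 0 < ε) :
    ∃ n0 : ℕ, 0 < n0 ∧ ∀ n ≥ n0, ∀ A : Matrix (Fin n) (Fin n) ℝ, A.det ≠ 0 → ∀ t : ℝ, 0 < t →
      t * n ≤ inv A → EntropyBound A (Real.log (U / t) + ε) := by
  obtain ⟨n0, hn0, hc⟩ := core h hε
  refine ⟨n0, hn0, fun n hn A hA t ht htA b k hs => ?_⟩
  obtain ⟨hk, hb, hi⟩ := hs.ineq (lt_of_lt_of_le hn0 hn) hA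
  have h1 := hc n hn _ _ (Nat.sub_add_cancel hb) (inv A) t k ht hk htA hi
  linarith

/-- automorphisms of prime order -/
theorem EntropyBound.prime {n : ℕ} (hn : 0 < n) {A : Matrix (Fin n) (Fin n) ℝ} (hA : A.det ≠ 0)
    {c : ℝ} (h : EntropyBound A c) {p : ℕ} (hp : p.Prime) {Q : Matrix (Fin n) (Fin n) ℝ}
    (hQ : IsAuto A Q) (hQp : Q ^ p = 1) :
    Real.binEntropy (((1 - Q).rank : ℝ) / n) ≤ c + glue p (((1 - Q).rank : ℝ) / n) := by
  have hn' : (0 : ℝ) < n := by exact_mod_cast hn
  have hle : (1 - Q).rank ≤ n := Matrix.rank_le_width (1 - Q)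
  have hp1 : (1 : ℝ) < p := by exact_mod_cast hp.one_lt
  have hlp : 0 < Real.log p := Real.log_pos hp1
  have hcast : ((n - (1 - Q).rank : ℕ) : ℝ) = n - (1 - Q).rank := Nat.cast_sub hle
  have e2 : Real.binEntropy (((1 - Q).rank : ℝ) / n) ≤ c +
      2 * (1 - ((1 - Q).rank : ℝ) / n) * Real.log p := by
    have h1 := h _ _ (prime_two A Q hA hQ hp hQp)
    rw [Real.log_pow, hcast] at h1
    have e : 2 / (n : ℝ) * ((n - (1 - Q).rank) * Real.log p) =
        2 * (1 - ((1 - Q).rank : ℝ) / n) * Real.log p := by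
      field_simp
    have e' : ((n : ℝ) - (1 - Q).rank) / n = 1 - ((1 - Q).rank : ℝ) / n := by
      field_simp
    rw [e, e', Real.binEntropy_one_sub] at h1
    exact h1
  have e1 : Real.binEntropy (((1 - Q).rank : ℝ) / n) ≤ c +
      2 * (((1 - Q).rank : ℝ) / n / (p - 1)) * Real.log p := by
    obtain ⟨k, hk, hs⟩ := prime_one A Q hA hQ hp hQp
    have hk0 : 0 < (k : ℝ) := (hs.ineq hn hA).1
    have h1 := h _ _ hs
    have h2 : ((p : ℝ) - 1) * Real.log k ≤ (1 - Q).rank * Real.log p := by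
      have h3 : ((k : ℝ)) ^ (p - 1) ≤ (p : ℝ) ^ (1 - Q).rank := by exact_mod_cast hk
      have h4 := Real.log_le_log (pow_pos hk0 _) h3
      rw [Real.log_pow, Real.log_pow, Nat.cast_sub hp.one_le, Nat.cast_one] at h4
      exact h4
    have hp1' : 0 < (p : ℝ) - 1 := by linarith
    have h5 : Real.log k ≤ (1 - Q).rank * Real.log p / (p - 1) := by
      rw [le_div_iff₀ hp1']
      linarith
    have h6 : 2 / (n : ℝ) * Real.log k ≤ 2 / n * ((1 - Q).rank * Real.log p / (p - 1)) :=
      mul_le_mul_of_nonneg_left h5 (by positivity)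
    have e : 2 / (n : ℝ) * ((1 - Q).rank * Real.log p / (p - 1)) =
        2 * (((1 - Q).rank : ℝ) / n / (p - 1)) * Real.log p := by
      field_simp
    rw [e] at h6
    linarith
  unfold glue
  rcases min_cases (1 - ((1 - Q).rank : ℝ) / n) (((1 - Q).rank : ℝ) / n / (p - 1)) with h9 | h9
  · rw [h9.1]
    exact e2
  · rw [h9.1]
    exact e1

end Pool.Agent.R834.HA
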