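import Pool.Agent.R834.HA.Lim

/-!
# If the limit of `γ_n / n` exists
-/

set_option autoImplicit false

namespace Pool.Agent.R834.HA

open Filter Matrix Topology Set
open Pool.Agent.H160R3.Herm

/-- the determinant of an endomorphism of an abelian group (which will be free of finite rank) -/
noncomputable def endoDet {M : Type} [AddCommGroup M] (f : M →ₗ[ℤ] M) : ℤ := LinearMap.det f

/-- the determinant of an endomorphism of `ℤⁿ` on its image -/
noncomputable def rangeDet {n : ℕ} (T : (Fin n → ℤ) →ₗ[ℤ] (Fin n → ℤ)) : ℤ := endoDet (onRange T)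

theorem two_min_lt {β : ℝ} (h0 : 0 < β) (h1 : β < 1) (h2 : β ≠ 1 / 2) :
    2 * min (1 - β) β * Real.log 2 < Real.binEntropy β := by
  have key : ∀ x : ℝ, 0 < x → x < 1 / 2 → 2 * x * Real.log 2 < Real.binEntropy x := by
    intro x hx0 hx1
    have hc : ∀ ⦃x : ℝ⦄, x ∈ Icc (0 : ℝ) 1 → ∀ ⦃y : ℝ⦄, y ∈ Icc (0 : ℝ) 1 → x ≠ y →
        ∀ ⦃a b : ℝ⦄, 0 < a → 0 < b → a + b = 1 →
        a • Real.binEntropy x + b • Real.binEntropy y < Real.binEntropy (a • x + b • y) :=
      Real.strictConcave_binEntropy.2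
    have h3 := hc (x := 0) ⟨le_refl _, zero_le_one⟩ (y := 1 / 2)
      ⟨by norm_num, by norm_num⟩ (by norm_num) (a := 1 - 2 * x) (b := 2 * x) (by linarith)
      (by linarith) (by ring)
    have e1 : (1 - 2 * x) • (0 : ℝ) + (2 * x) • (1 / 2 : ℝ) = x := by
      simp only [smul_eq_mul]
      ring
    have e2 : Real.binEntropy (1 / 2) = Real.log 2 := by
      rw [one_div]
      exact Real.binEntropy_two_inv
    rw [e1, Real.binEntropy_zero, e2, smul_zero, zero_add, smul_eq_mul] at h3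
    exact h3
  rcases lt_or_gt_of_ne h2 with h | h
  · rw [min_eq_right (by linarith)]
    exact key β h0 h
  · rw [min_eq_left (by linarith), ← Real.binEntropy_one_sub]
    exact key (1 - β) (by linarith) (by linarith)

theorem exists_min (f : ℝ → ℝ) (hf : Continuous f) (K : Set ℝ) (hK : IsCompact K)
    (hpos : ∀ x ∈ K, 0 < f x) : ∃ m : ℝ, 0 < m ∧ ∀ x ∈ K, m ≤ f x := by
  rcases K.eq_empty_or_nonempty with rfl | hne
  · exact ⟨1, one_pos, by simp⟩
  · obtain ⟨x, hx, hm⟩ := hK.exists_isMinOn hne hf.continuousOn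
    exact ⟨f x, hpos x hx, fun y hy => hm hy⟩

theorem glue_two (β : ℝ) : glue 2 β = 2 * min (1 - β) β * Real.log 2 := by
  unfold glue
  norm_num

theorem glue_le {p : ℕ} (hp : 2 ≤ p) {β : ℝ} (h1 : β ≤ 1) {m : ℝ} (hm : 0 < m)
    (h : (16 / m) ^ 2 ≤ p) : glue p β ≤ m / 4 := by
  have hp' : (2 : ℝ) ≤ p := by exact_mod_cast hp
  have hs0 : 0 < √(p : ℝ) := Real.sqrt_pos.2 (by linarith)
  have hs1 : 1 < √(p : ℝ) := by
    rw [Real.lt_sqrt zero_le_one]
    linarith
  have hsq : √(p : ℝ) ^ 2 = p := Real.sq_sqrt (by linarith)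
  have hs : 16 / m ≤ √(p : ℝ) := Real.le_sqrt_of_sq_le h
  have hlog : Real.log p ≤ 2 * (√(p : ℝ) - 1) := by
    have h2 := Real.log_le_sub_one_of_pos hs0
    have h3 : Real.log p = 2 * Real.log √(p : ℝ) := by
      rw [← hsq, Real.log_pow]
      push_cast
      rw [hsq]
    linarith
  have hlog0 : 0 ≤ Real.log p := Real.log_nonneg (by linarith)
  have h4 : glue p β ≤ 2 * (β / (p - 1)) * Real.log p := by
    unfold glue
    refine mul_le_mul_of_nonneg_right ?_ hlog0
    exact mul_le_mul_of_nonneg_left (min_le_right _ _) (by norm_num)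
  have hp1 : 0 < (p : ℝ) - 1 := by linarith
  have h5 : 2 * (β / (p - 1)) * Real.log p ≤ 4 / √(p : ℝ) := by
    have e : 2 * (β / ((p : ℝ) - 1)) * Real.log p = 2 * β * Real.log p / (p - 1) := by ring
    rw [e, div_le_div_iff₀ hp1 hs0]
    have h6 : β * Real.log p ≤ 1 * (2 * (√(p : ℝ) - 1)) :=
      mul_le_mul h1 hlog hlog0 zero_le_one
    have h7 : (p : ℝ) - 1 = (√(p : ℝ) - 1) * (√(p : ℝ) + 1) := by
      rw [← hsq]
      rw [hsq]
      nlinarith
    rw [h7]
    nlinarith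
  have h8 : 4 / √(p : ℝ) ≤ m / 4 := by
    rw [div_le_div_iff₀ hs0 (by norm_num)]
    rw [div_le_iff₀ hm] at hs
    linarith
  linarith

/-- **If the limit exists.** -/
theorem of_limit {L : ℝ} (hL : Tendsto ratio atTop (𝓝 L)) {δ : ℝ} (hδ : 0 < δ) :
    ∃ η : ℝ, 0 < η ∧ ∃ P n0 : ℕ, 0 < n0 ∧ ∀ n ≥ n0, ∀ A : Matrix (Fin n) (Fin n) ℝ, A.det ≠ 0 →
      (1 - η) * hermite n ≤ inv A →
      (∀ (b : ℕ) (k : ℝ), SplitsInto A b k → k ≤ Real.exp (η * n) →
        (b : ℝ) ≤ δ * n ∨ (1 - δ) * n ≤ b) ∧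
      (∀ Q, IsAuto A Q → Q ^ 2 = 1 → ((1 - Q).rank : ℝ) ≤ δ * n ∨
        |((1 - Q).rank : ℝ) - n / 2| ≤ δ * n ∨ (1 - δ) * n ≤ (1 - Q).rank) ∧
      (∀ p : ℕ, p.Prime → P ≤ p → ∀ Q, IsAuto A Q → Q ^ p = 1 →
        ((1 - Q).rank : ℝ) ≤ δ * n ∨ (1 - δ) * n ≤ (1 - Q).rank) := by
  have hu : limsup ratio atTop = L := hL.limsup_eq
  have hl : liminf ratio atTop = L := hL.liminf_eq
  have hL0 : 0 < L := by
    have h1 : (1 / 144 : ℝ) ≤ L := by
      refine ge_of_tendsto hL ?_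
      filter_upwards [eventually_gt_atTop 0] with n hn
      exact ratio_ge hn
    linarith
  obtain ⟨m1, hm1, hK1⟩ := exists_min Real.binEntropy Real.binEntropy_continuous (Icc δ (1 - δ))
    isCompact_Icc (fun x hx => Real.binEntropy_pos (by linarith [hx.1]) (by linarith [hx.2]))
  obtain ⟨m2, hm2, hK2⟩ := exists_min (fun β => Real.binEntropy β - 2 * min (1 - β) β * Real.log 2)
    (by
      have := Real.binEntropy_continuous
      fun_prop) (Icc δ (1 - δ) ∩ {β | δ ≤ |β - 1 / 2|})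
    (isCompact_Icc.inter_right (isClosed_le continuous_const (by fun_prop))) (by
      rintro x ⟨hx, hx2⟩
      have h2 : δ ≤ |x - 1 / 2| := hx2
      have h1 := two_min_lt (β := x) (by linarith [hx.1]) (by linarith [hx.2]) (by
        rintro rfl
        rw [sub_self, abs_zero] at h2
        linarith)
      linarith)
  set m := min m1 m2 with hm
  have hm0 : 0 < m := lt_min hm1 hm2
  have hmle1 : m ≤ m1 := min_le_left _ _
  have hmle2 : m ≤ m2 := min_le_right _ _
  set η := min (1 / 2) (m / 8) with hη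
  have hη0 : 0 < η := lt_min (by norm_num) (by positivity)
  have hη1 : η ≤ 1 / 2 := min_le_left _ _
  have hη2 : η ≤ m / 8 := min_le_right _ _
  have hκ : 0 < 1 - η := by linarith
  have hlogκ : Real.log (L / ((1 - η) * L)) ≤ m / 4 := by
    have e : L / ((1 - η) * L) = (1 - η)⁻¹ := by
      field_simp
    rw [e]
    have h1 := Real.log_le_sub_one_of_pos (inv_pos.2 hκ)
    have h2 : (1 - η)⁻¹ - 1 ≤ 2 * η := by
      have : (1 - η)⁻¹ ≤ 1 + 2 * η := by
        rw [inv_le_iff_one_le_mul₀ hκ]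
        nlinarith
      linarith
    linarith
  obtain ⟨n0, hn0, h0⟩ := near_split (ε := m / 4) (by positivity) hκ
  obtain ⟨P, hP⟩ := exists_nat_gt ((16 / m) ^ 2)
  rw [hu, hl] at h0
  refine ⟨η, hη0, P, n0, hn0, ?_⟩
  intro n hn A hA hAη
  have hnpos : 0 < n := lt_of_lt_of_le hn0 hn
  have hEB := h0 n hn A hA hAη
  have hn' : (0 : ℝ) < n := by exact_mod_cast hnpos
  have hin : ∀ x : ℝ, ¬ (x ≤ δ * n ∨ (1 - δ) * n ≤ x) → x / n ∈ Icc δ (1 - δ) := by
    intro x hx
    rw [not_or, not_le, not_le] at hx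
    exact ⟨by rw [le_div_iff₀ hn']; exact hx.1.le, by rw [div_le_iff₀ hn']; exact hx.2.le⟩
  have hrank : ∀ Q : Matrix (Fin n) (Fin n) ℝ, (0 : ℝ) ≤ ((1 - Q).rank : ℝ) / n ∧
      ((1 - Q).rank : ℝ) / n ≤ 1 := by
    intro Q
    refine ⟨by positivity, ?_⟩
    rw [div_le_one hn']
    have : (1 - Q).rank ≤ n := Matrix.rank_le_width (1 - Q)
    exact_mod_cast this
  refine ⟨?_, ?_, ?_⟩
  · intro b k hs hk
    by_contra hcon
    have h2 := hin _ hcon
    have hk0 : 0 < k := (hs.ineq hnpos hA).1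
    have h4 := hEB b k hs
    have h5 : 2 / (n : ℝ) * Real.log k ≤ 2 * η := by
      have h6 : Real.log k ≤ η * n := by
        rw [Real.log_le_iff_le_exp hk0]
        exact hk
      have h7 := mul_le_mul_of_nonneg_left h6 (show (0 : ℝ) ≤ 2 / n by positivity)
      have e : 2 / (n : ℝ) * (η * n) = 2 * η := by field_simp
      rwa [e] at h7
    have h8 := hK1 _ h2
    linarith
  · intro Q hQ hQ2
    by_contra hcon
    rw [not_or, not_or] at hcon
    obtain ⟨c1, c2, c3⟩ := hcon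
    have h2 := hin _ (not_or.2 ⟨c1, c3⟩)
    have h3 : δ ≤ |((1 - Q).rank : ℝ) / n - 1 / 2| := by
      rw [not_le] at c2
      have e : ((1 - Q).rank : ℝ) - n / 2 = (((1 - Q).rank : ℝ) / n - 1 / 2) * n := by
        field_simp
      rw [e, abs_mul, abs_of_pos hn'] at c2
      exact (lt_of_mul_lt_mul_right c2 hn'.le).le
    have h4 := hEB.prime hnpos hA Nat.prime_two hQ hQ2
    have h5 := hK2 _ ⟨h2, h3⟩
    rw [glue_two] at h4
    linarith
  · intro p hp hPp Q hQ hQp
    by_contra hcon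
    have h2 := hin _ hcon
    have h3 := hEB.prime hnpos hA hp hQ hQp
    have h4 : (16 / m) ^ 2 ≤ (p : ℝ) := hP.le.trans (by exact_mod_cast hPp)
    have h5 := glue_le hp.two_le (hrank Q).2 hm0 h4
    have h6 := hK1 _ h2
    linarith

theorem log_bound {p : ℕ} (hp : 23 ≤ p) :
    Real.log p < ((p : ℝ) - 1) * (103 / 500) * Real.log 2 := by
  have hp' : (23 : ℝ) ≤ p := by exact_mod_cast hp
  have h1 : Real.log 23 < 77 / 17 * Real.log 2 := by
    have h2 : ((23 : ℝ)) ^ 17 < 2 ^ 77 := by norm_num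
    have h3 := Real.log_lt_log (by positivity) h2
    rw [Real.log_pow, Real.log_pow] at h3
    push_cast at h3
    linarith
  have h2 : Real.log p ≤ Real.log 23 + (p / 23 - 1) := by
    have h3 := Real.log_le_sub_one_of_pos (show (0 : ℝ) < p / 23 by positivity)
    rw [Real.log_div (by positivity) (by norm_num)] at h3
    linarith
  have h3 := Real.log_two_gt_d9
  nlinarith

/-- no automorphism of prime order at least `23` moves exactly half of the dimensions -/
theorem half {n : ℕ} (hnpos : 0 < n) {A : Matrix (Fin n) (Fin n) ℝ} (hA : A.det ≠ 0)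
    (hE : EntropyBound A (397 / 500 * Real.log 2)) {p : ℕ} (hp : p.Prime) (h23 : 23 ≤ p)
    {Q : Matrix (Fin n) (Fin n) ℝ} (hQ : IsAuto A Q) (hQp : Q ^ p = 1) :
    2 * (1 - Q).rank ≠ n := by
  intro heq
  have hn' : (0 : ℝ) < n := by exact_mod_cast hnpos
  have h1 := hE.prime hnpos hA hp hQ hQp
  have e : ((1 - Q).rank : ℝ) / n = 2⁻¹ := by
    have : (2 : ℝ) * (1 - Q).rank = n := by exact_mod_cast heq
    rw [← this]
    have h2 : ((1 - Q).rank : ℝ) ≠ 0 := by
      intro h0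
      rw [h0] at this
      linarith
    field_simp
  rw [e, Real.binEntropy_two_inv] at h1
  have hp' : (23 : ℝ) ≤ p := by exact_mod_cast h23
  have hlp : 0 ≤ Real.log p := Real.log_nonneg (by linarith)
  have h2 : glue p 2⁻¹ ≤ 2 * (2⁻¹ / ((p : ℝ) - 1)) * Real.log p := by
    unfold glue
    exact mul_le_mul_of_nonneg_right
      (mul_le_mul_of_nonneg_left (min_le_right _ _) (by norm_num)) hlp
  have h3 : 2 * (2⁻¹ / ((p : ℝ) - 1)) * Real.log p < 103 / 500 * Real.log 2 := by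
    have h4 := log_bound h23
    have h5 : 0 < (p : ℝ) - 1 := by linarith
    have e2 : 2 * (2⁻¹ / ((p : ℝ) - 1)) * Real.log p = Real.log p / (p - 1) := by
      field_simp
    rw [e2, div_lt_iff₀ h5]
    linarith
  linarith

/-- sublattices which split into small pieces have a large index -/
theorem small_pieces {n r : ℕ} (hn : 0 < n) (A : Matrix (Fin n) (Fin n) ℝ) (hA : A.det ≠ 0)
    (B : Matrix (Fin n) (Fin n) ℤ) (hB : B.det ≠ 0) (blk : Fin n → Fin r)
    (horth : ∀ x y, blk x ≠ blk y →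
      ((A * B.map (fun z : ℤ => (z : ℝ)))ᵀ * (A * B.map (fun z : ℤ => (z : ℝ)))) x y = 0)
    (d : ℕ) (hd : ∀ i, dims blk i ≤ d) : inv A ^ n ≤ (B.det : ℝ) ^ 2 * (d : ℝ) ^ n := by
  refine (split_ineq hn A hA B hB blk horth).trans ?_
  refine mul_le_mul_of_nonneg_left ?_ (sq_nonneg _)
  calc ∏ i, hermite (dims blk i) ^ dims blk i ≤ ∏ i, (d : ℝ) ^ dims blk i := by
        refine Finset.prod_le_prod (fun i _ => (pow_self_pos _).le) fun i _ => ?_
        rcases Nat.eq_zero_or_pos (dims blk i) with h | h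
        · rw [h, pow_zero, pow_zero]
        · refine pow_le_pow_left₀ (hermite_pos h).le ((hermite_le h).trans ?_) _
          exact_mod_cast hd i
    _ = (d : ℝ) ^ n := by rw [Finset.prod_pow_eq_pow_sum, sum_dims]

end Pool.Agent.R834.HA
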