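import Pool.Agent.R834.HA.Endo

/-!
# The determinant of `1 - g` for `g` of prime order without fixed vectors
-/

set_option autoImplicit false

namespace Pool.Agent.R834.HA

open Polynomial Module

theorem prod_identity {p : ℕ} (hp : p.Prime) : ∃ h : ℤ[X],
    ∏ j ∈ Finset.range (p - 1), (1 - X ^ (j + 1)) = C (p : ℤ) + cyclotomic p ℤ * h := by
  have hζ := Complex.isPrimitiveRoot_exp p hp.ne_zero
  set ζ := Complex.exp (2 * Real.pi * Complex.I / p) with hζd
  have hdvd : cyclotomic p ℤ ∣ ∏ j ∈ Finset.range (p - 1), (1 - X ^ (j + 1)) - C (p : ℤ) := by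
    rw [cyclotomic_eq_minpoly hζ hp.pos]
    refine minpoly.isIntegrallyClosed_dvd (hζ.isIntegral hp.pos) ?_
    rw [map_sub, map_prod]
    simp only [map_sub, map_one, map_pow, aeval_X, aeval_C]
    have h1 : IsPrimitiveRoot ζ (p - 1 + 1) := by
      rw [Nat.sub_add_cancel hp.one_le]
      exact hζ
    rw [h1.prod_one_sub_pow_eq_order]
    have h2 : ((p - 1 : ℕ) : ℂ) = (p : ℂ) - 1 := by
      rw [Nat.cast_sub hp.one_le, Nat.cast_one]
    rw [h2]
    simp
  obtain ⟨h, hh⟩ := hdvd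
  exact ⟨h, by rw [← hh]; ring⟩

theorem det_bound {M : Type} [AddCommGroup M] [Module.Free ℤ M] [Module.Finite ℤ M]
    (g : M →ₗ[ℤ] M) {p : ℕ} (hp : p.Prime) (hs : ∑ i ∈ Finset.range p, g ^ i = 0) :
    (LinearMap.det (1 - g)).natAbs ^ (p - 1) ≤ p ^ finrank ℤ M := by
  obtain ⟨h, hh⟩ := prod_identity hp
  let φ : ℤ[X] →* ℤ := (LinearMap.det : (M →ₗ[ℤ] M) →* ℤ).comp
    ((aeval g : ℤ[X] →ₐ[ℤ] (M →ₗ[ℤ] M)) : ℤ[X] →* (M →ₗ[ℤ] M))
  have hφ : ∀ q, φ q = LinearMap.det (aeval g q) := fun q => rfl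
  have hcyc : aeval g (cyclotomic p ℤ) = 0 := by
    have := Fact.mk hp
    rw [cyclotomic_prime, map_sum, ← hs]
    exact Finset.sum_congr rfl fun i _ => by rw [map_pow, aeval_X]
  have h1 : φ (C (p : ℤ) + cyclotomic p ℤ * h) = (p : ℤ) ^ finrank ℤ M := by
    rw [hφ, map_add, map_mul, hcyc, zero_mul, add_zero, aeval_C, Algebra.algebraMap_eq_smul_one,
      LinearMap.det_smul, map_one, mul_one]
  have h2 : ∏ j ∈ Finset.range (p - 1), φ (1 - X ^ (j + 1)) = (p : ℤ) ^ finrank ℤ M := by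
    rw [← map_prod, hh, h1]
  have h3 : ∏ j ∈ Finset.range (p - 1), (φ (1 - X ^ (j + 1))).natAbs = p ^ finrank ℤ M := by
    have h4 := congrArg Int.natAbs h2
    rw [Int.natAbs_pow, Int.natAbs_natCast] at h4
    rw [← h4]
    exact (map_prod Int.natAbsHom _ _).symm
  have hne : ∀ j ∈ Finset.range (p - 1), (φ (1 - X ^ (j + 1))).natAbs ≠ 0 := by
    intro j hj h0
    have h5 : ∏ j ∈ Finset.range (p - 1), (φ (1 - X ^ (j + 1))).natAbs = 0 :=
      Finset.prod_eq_zero hj h0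
    rw [h3] at h5
    exact pow_ne_zero _ hp.ne_zero h5
  rw [← h3]
  have h6 : (LinearMap.det (1 - g)).natAbs ^ (p - 1) =
      ∏ _j ∈ Finset.range (p - 1), (LinearMap.det (1 - g)).natAbs := by
    rw [Finset.prod_const, Finset.card_range]
  rw [h6]
  refine Finset.prod_le_prod' fun j hj => ?_
  have h7 : (1 - X ^ (j + 1) : ℤ[X]) = (1 - X) * ∑ i ∈ Finset.range (j + 1), X ^ i := by
    rw [mul_neg_geom_sum]
  have h8 : φ (1 - X) = LinearMap.det (1 - g) := by
    rw [hφ, map_sub, map_one, aeval_X]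
  have h9 := hne j hj
  rw [h7, map_mul, h8, Int.natAbs_mul] at h9 ⊢
  exact Nat.le_mul_of_pos_right _ (Nat.pos_of_ne_zero (right_ne_zero_of_mul h9))

end Pool.Agent.R834.HA
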