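import Pool.Agent.R834.HA.Split

/-!
# The splitting of a lattice given by an endomorphism
-/

set_option autoImplicit false

namespace Pool.Agent.R834.HA

open Matrix Module
open Pool.Agent.H160R3.Herm

/-- `T` on its range -/
noncomputable def onRange {n : ℕ} (T : (Fin n → ℤ) →ₗ[ℤ] (Fin n → ℤ)) :
    LinearMap.range T →ₗ[ℤ] LinearMap.range T :=
  T.rangeRestrict ∘ₗ (LinearMap.range T).subtype

theorem coe_onRange {n : ℕ} (T : (Fin n → ℤ) →ₗ[ℤ] (Fin n → ℤ)) (y : LinearMap.range T) :
    ((onRange T y : LinearMap.range T) : Fin n → ℤ) = T y.1 := rfl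

theorem card_fiber {n a b : ℕ} (e : Fin a ⊕ Fin b ≃ Fin n) :
    dims (fun x => Sum.elim (fun _ => (0 : Fin 2)) (fun _ => 1) (e.symm x)) 0 = a ∧
    dims (fun x => Sum.elim (fun _ => (0 : Fin 2)) (fun _ => 1) (e.symm x)) 1 = b := by
  constructor
  · have h : Function.Bijective (fun i : Fin a =>
        (⟨e (Sum.inl i), by simp⟩ : {x : Fin n //
          (fun x => Sum.elim (fun _ => (0 : Fin 2)) (fun _ => 1) (e.symm x)) x = 0})) := by
      constructor
      · intro i j hij
        have := congrArg Subtype.val hij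
        simpa using this
      · rintro ⟨x, hx⟩
        obtain ⟨y, rfl⟩ := e.surjective x
        rcases y with i | j
        · exact ⟨i, rfl⟩
        · simp at hx
    have h2 := Fintype.card_of_bijective h
    rw [Fintype.card_fin] at h2
    exact h2.symm
  · have h : Function.Bijective (fun i : Fin b =>
        (⟨e (Sum.inr i), by simp⟩ : {x : Fin n //
          (fun x => Sum.elim (fun _ => (0 : Fin 2)) (fun _ => 1) (e.symm x)) x = 1})) := by
      constructor
      · intro i j hij
        have := congrArg Subtype.val hij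
        simpa using this
      · rintro ⟨x, hx⟩
        obtain ⟨y, rfl⟩ := e.surjective x
        rcases y with i | j
        · simp at hx
        · exact ⟨j, rfl⟩
    have h2 := Fintype.card_of_bijective h
    rw [Fintype.card_fin] at h2
    exact h2.symm

theorem endo_split {n : ℕ} (T : (Fin n → ℤ) →ₗ[ℤ] (Fin n → ℤ)) :
    ∃ (B : Matrix (Fin n) (Fin n) ℤ) (blk : Fin n → Fin 2),
      B.det.natAbs = (LinearMap.det (onRange T)).natAbs ∧
      (∀ x, blk x = 0 → T (fun i => B i x) = 0) ∧
      (∀ x, blk x = 1 → ∃ z, T z = fun i => B i x) ∧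
      dims blk 0 = finrank ℤ (LinearMap.ker T) ∧ dims blk 1 = finrank ℤ (LinearMap.range T) := by
  classical
  set a := finrank ℤ (LinearMap.ker T) with ha
  set b := finrank ℤ (LinearMap.range T) with hb
  let bK : Basis (Fin a) ℤ (LinearMap.ker T) := Module.finBasis ℤ _
  let bR : Basis (Fin b) ℤ (LinearMap.range T) := Module.finBasis ℤ _
  let bQ : Basis (Fin b) ℤ ((Fin n → ℤ) ⧸ LinearMap.ker T) := bR.map T.quotKerEquivRange.symm
  let W : Basis (Fin a ⊕ Fin b) ℤ (Fin n → ℤ) := Basis.sumQuot bK bQ
  let st : Basis (Fin n) ℤ (Fin n → ℤ) := Pi.basisFun ℤ (Fin n)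
  let e : Fin a ⊕ Fin b ≃ Fin n := W.indexEquiv st
  have hTW : ∀ j, T (W (Sum.inr j)) = bR j := by
    intro j
    have h1 : Submodule.Quotient.mk (W (Sum.inr j)) = bQ j := Basis.sumQuot_inr bK bQ j
    have h2 : T.quotKerEquivRange (Submodule.Quotient.mk (W (Sum.inr j))) = bR j := by
      rw [h1]
      simp [bQ]
    have h3 := congrArg Subtype.val h2
    exact h3
  let c : Fin a ⊕ Fin b → (Fin n → ℤ) := Sum.elim (fun i => (bK i : Fin n → ℤ)) (fun j => (bR j : Fin n → ℤ))
  let M : Matrix (Fin a ⊕ Fin b) (Fin a ⊕ Fin b) ℤ := W.toMatrix c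
  have hM : M.det = LinearMap.det (onRange T) := by
    have e1 : M = Matrix.fromBlocks 1 M.toBlocks₁₂ 0 (LinearMap.toMatrix bR bR (onRange T)) := by
      ext x y
      rcases x with i | i <;> rcases y with j | j
      · have h1 : W.repr (bK j : Fin n → ℤ) = Finsupp.single (Sum.inl j) 1 :=
          Basis.sumQuot_repr_left bK bQ j
        change W.repr (bK j : Fin n → ℤ) (Sum.inl i) = (1 : Matrix (Fin a) (Fin a) ℤ) i j
        rw [h1, Finsupp.single_apply, Matrix.one_apply]
        simp [eq_comm]
      · rfl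
      · have h1 : W.repr (bK j : Fin n → ℤ) = Finsupp.single (Sum.inl j) 1 :=
          Basis.sumQuot_repr_left bK bQ j
        change W.repr (bK j : Fin n → ℤ) (Sum.inr i) = 0
        rw [h1, Finsupp.single_apply]
        simp
      · change W.repr (bR j : Fin n → ℤ) (Sum.inr i) = LinearMap.toMatrix bR bR (onRange T) i j
        have h1 : W.repr (bR j : Fin n → ℤ) (Sum.inr i) =
            bQ.repr ((LinearMap.ker T).mkQ (bR j : Fin n → ℤ)) i := Basis.sumQuot_repr_inr bK bQ _ i
        rw [h1, LinearMap.toMatrix_apply]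
        have h2 : bQ.repr ((LinearMap.ker T).mkQ (bR j : Fin n → ℤ)) =
            bR.repr (T.quotKerEquivRange ((LinearMap.ker T).mkQ (bR j : Fin n → ℤ))) := by
          simp [bQ]
        rw [h2]
        rfl
    rw [e1, Matrix.det_fromBlocks_zero₂₁, Matrix.det_one, one_mul, LinearMap.det_toMatrix]
  let B : Matrix (Fin n) (Fin n) ℤ := fun i x => c (e.symm x) i
  have hB : B = st.toMatrix (W.reindex e) * M.submatrix e.symm e.symm := by
    ext i x
    have h1 := Basis.toMatrix_mul_toMatrix st W c
    have h2 : (st.toMatrix c) i (e.symm x) = (st.toMatrix W * W.toMatrix c) i (e.symm x) := by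
      rw [h1]
    have h3 : (st.toMatrix c) i (e.symm x) = B i x := by
      simp [Basis.toMatrix_apply, st, B]
    rw [← h3, h2, Matrix.mul_apply, Matrix.mul_apply, ← Equiv.sum_comp e.symm]
    refine Finset.sum_congr rfl fun y _ => ?_
    simp [Basis.toMatrix_apply, M]
  have hunit : IsUnit (st.toMatrix (W.reindex e)).det := by
    rw [← Basis.det_apply]
    exact st.isUnit_det (W.reindex e)
  refine ⟨B, fun x => Sum.elim (fun _ => (0 : Fin 2)) (fun _ => 1) (e.symm x), ?_, ?_, ?_,
    (card_fiber e).1, (card_fiber e).2⟩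
  · rw [hB, Matrix.det_mul, Matrix.det_submatrix_equiv_self, hM, Int.natAbs_mul,
      Int.isUnit_iff_natAbs_eq.1 hunit, one_mul]
  · intro x hx
    obtain ⟨y, rfl⟩ := e.surjective x
    rcases y with i | j
    · have h1 : (fun i' => B i' (e (Sum.inl i))) = (bK i : Fin n → ℤ) := by
        funext i'
        simp [B, c]
      rw [h1]
      exact (bK i).2
    · simp at hx
  · intro x hx
    obtain ⟨y, rfl⟩ := e.surjective x
    rcases y with i | j
    · simp at hx
    · refine ⟨W (Sum.inr j), ?_⟩
      rw [hTW]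
      funext i'
      simp [B, c]

end Pool.Agent.R834.HA
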