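import Pool.Agent.R834.HA.Endo

/-!
# Endomorphisms whose kernel is orthogonal to their range
-/

set_option autoImplicit false

namespace Pool.Agent.R834.HA

open Matrix Module
open Pool.Agent.H160R3.Herm

theorem dims_le {n r : ℕ} (D : Matrix (Fin n) (Fin n) ℝ) (hD : D.det ≠ 0) (blk : Fin n → Fin r)
    (i : Fin r) (S : Submodule ℝ (Fin n → ℝ)) (h : ∀ x, blk x = i → (fun k => D k x) ∈ S) :
    dims blk i ≤ finrank ℝ S := by
  have h1 : LinearIndependent ℝ (fun x : Fin n => (fun k => D k x : Fin n → ℝ)) := by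
    have h2 : LinearIndependent ℝ D.col := by
      rw [Matrix.linearIndependent_cols_iff_isUnit, isUnit_iff_isUnit_det]
      exact isUnit_iff_ne_zero.2 hD
    exact h2
  let v : {x : Fin n // blk x = i} → S := fun x => ⟨fun k => D k x.1, h x.1 x.2⟩
  have h3 : LinearIndependent ℝ v := by
    apply LinearIndependent.of_comp S.subtype
    exact h1.comp (fun x : {x : Fin n // blk x = i} => x.1) Subtype.val_injective
  exact h3.fintype_card_le_finrank

theorem cast_zero_vec {n : ℕ} : (fun j => (((0 : Fin n → ℤ) j : ℤ) : ℝ)) = 0 := by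
  funext j
  simp

theorem cast_mulVec {n : ℕ} (U : Matrix (Fin n) (Fin n) ℤ) (w : Fin n → ℤ) :
    (fun j => ((U.mulVec w) j : ℝ)) = (U.map (fun z : ℤ => (z : ℝ))).mulVec (fun j => (w j : ℝ)) := by
  funext j
  simp [mulVec, dotProduct]

theorem endo_ineq {n : ℕ} (A F : Matrix (Fin n) (Fin n) ℝ) (hA : A.det ≠ 0)
    (U : Matrix (Fin n) (Fin n) ℤ) (hU : F * A = A * U.map (fun z : ℤ => (z : ℝ)))
    (hker : ∀ x, F.mulVec x = 0 → Fᵀ.mulVec x = 0) :
    LinearMap.det (onRange (Matrix.toLin' U)) ≠ 0 ∧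
    finrank ℤ (LinearMap.range (Matrix.toLin' U)) = F.rank ∧
    finrank ℝ (LinearMap.ker (Matrix.toLin' F)) + F.rank = n ∧
    SplitsInto A F.rank |((LinearMap.det (onRange (Matrix.toLin' U)) : ℤ) : ℝ)| := by
  classical
  set T := Matrix.toLin' U with hT
  have hTa : ∀ w, T w = U.mulVec w := fun w => by rw [hT, toLin'_apply]
  have hFA : ∀ w : Fin n → ℤ, F.mulVec (A.mulVec (fun j => (w j : ℝ))) =
      A.mulVec (fun j => ((T w) j : ℝ)) := by
    intro w
    rw [mulVec_mulVec, hU, ← mulVec_mulVec, hTa, cast_mulVec]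
  have hAinj : ∀ w : Fin n → ℤ, A.mulVec (fun j => (w j : ℝ)) = 0 → w = 0 := by
    intro w hw
    have h1 := Matrix.eq_zero_of_mulVec_eq_zero hA hw
    funext j
    have := congrFun h1 j
    simpa using this
  have horth0 : ∀ x z : Fin n → ℤ, T x = 0 →
      A.mulVec (fun j => (x j : ℝ)) ⬝ᵥ A.mulVec (fun j => ((T z) j : ℝ)) = 0 := by
    intro x z hx
    have h1 : F.mulVec (A.mulVec (fun j => (x j : ℝ))) = 0 := by
      rw [hFA, hx, cast_zero_vec, mulVec_zero]
    have h2 := hker _ h1
    rw [← hFA, dotProduct_mulVec, ← mulVec_transpose, h2, zero_dotProduct]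
  have hdet : LinearMap.det (onRange T) ≠ 0 := by
    intro h0
    let bR := Module.finBasis ℤ (LinearMap.range T)
    rw [← LinearMap.det_toMatrix bR] at h0
    obtain ⟨v, hv0, hv⟩ := Matrix.exists_mulVec_eq_zero_iff.2 h0
    let y : LinearMap.range T := bR.equivFun.symm v
    have hy0 : y ≠ 0 := by
      intro h
      apply hv0
      exact (LinearEquiv.map_eq_zero_iff _).1 h
    have hy : onRange T y = 0 := by
      apply bR.equivFun.injective
      rw [map_zero]
      have h1 := LinearMap.toMatrix_mulVec_repr bR bR (onRange T) y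
      have h2 : ⇑(bR.repr y) = v := by
        have h3 : bR.equivFun y = v := bR.equivFun.apply_symm_apply v
        exact h3
      rw [h2, hv] at h1
      exact h1.symm
    apply hy0
    obtain ⟨z, hz⟩ := y.2
    have h1 : T y.1 = 0 := by
      have := congrArg Subtype.val hy
      exact this
    have h2 := horth0 y.1 z h1
    rw [hz] at h2
    have h3 : A.mulVec (fun j => (y.1 j : ℝ)) = 0 := dotProduct_self_eq_zero.1 h2
    exact Subtype.ext (hAinj _ h3)
  obtain ⟨B, blk, hBd, hB0, hB1, hd0, hd1⟩ := endo_split T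
  have hBne : B.det ≠ 0 := by
    intro h0
    rw [h0, Int.natAbs_zero] at hBd
    exact hdet (Int.natAbs_eq_zero.1 hBd.symm)
  set D : Matrix (Fin n) (Fin n) ℝ := A * B.map (fun z : ℤ => (z : ℝ)) with hD
  have hBd' : (B.map (fun z : ℤ => (z : ℝ))).det = (B.det : ℝ) :=
    ((Int.castRingHom ℝ).map_det B).symm
  have hDd : D.det ≠ 0 := by
    rw [hD, det_mul, hBd']
    exact mul_ne_zero hA (by exact_mod_cast hBne)
  have hcol : ∀ x, (fun k => D k x) = A.mulVec (fun j => ((fun i => B i x) j : ℝ)) := by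
    intro x
    funext k
    rw [hD, mul_apply]
    rfl
  have hk0 : ∀ x, blk x = 0 → (fun k => D k x) ∈ LinearMap.ker (Matrix.toLin' F) := by
    intro x hx
    rw [LinearMap.mem_ker, toLin'_apply, hcol, hFA, hB0 x hx, cast_zero_vec, mulVec_zero]
  have hk1 : ∀ x, blk x = 1 → (fun k => D k x) ∈ LinearMap.range (Matrix.toLin' F) := by
    intro x hx
    obtain ⟨z, hz⟩ := hB1 x hx
    refine ⟨A.mulVec (fun j => (z j : ℝ)), ?_⟩
    rw [toLin'_apply, hFA, hz, hcol]
  have hle0 := dims_le D hDd blk 0 _ hk0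
  have hle1 := dims_le D hDd blk 1 _ hk1
  have hrn : finrank ℝ (LinearMap.range (Matrix.toLin' F)) + finrank ℝ (LinearMap.ker (Matrix.toLin' F)) = n := by
    have := LinearMap.finrank_range_add_finrank_ker (Matrix.toLin' F)
    rwa [finrank_fin_fun] at this
  have hrank : F.rank = finrank ℝ (LinearMap.range (Matrix.toLin' F)) := rfl
  have hsum := sum_dims blk
  rw [Fin.sum_univ_two] at hsum
  have hd0' : dims blk 0 = n - F.rank := by omega
  have hd1' : dims blk 1 = F.rank := by omega
  refine ⟨hdet, by rw [← hd1, hd1'], by omega, ?_⟩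
  refine ⟨B, blk, hBne, ?_, hd1', ?_⟩
  · have key : ∀ x y, blk x = 0 → blk y = 1 → (Dᵀ * D) x y = 0 := by
      intro x y hx hy
      obtain ⟨z, hz⟩ := hB1 y hy
      have h1 := horth0 (fun i => B i x) z (hB0 x hx)
      rw [hz] at h1
      have h2 : (Dᵀ * D) x y = (fun k => D k x) ⬝ᵥ (fun k => D k y) := rfl
      rw [h2, hcol x, hcol y]
      exact h1
    intro x y hxy
    have h2 : ∀ i : Fin 2, i = 0 ∨ i = 1 := by decide
    rcases h2 (blk x) with hx | hx <;> rcases h2 (blk y) with hy | hy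
    · exact absurd (hx.trans hy.symm) hxy
    · exact key x y hx hy
    · have h3 : (Dᵀ * D) x y = (Dᵀ * D) y x := by
        have h4 : (Dᵀ * D)ᵀ = Dᵀ * D := by rw [transpose_mul, transpose_transpose]
        rw [← h4, transpose_apply, h4]
      rw [← hD, h3]
      exact key y x hy hx
    · exact absurd (hx.trans hy.symm) hxy
  · have h6 := congrArg (fun m : ℕ => (m : ℝ)) hBd
    simp only [Nat.cast_natAbs, Int.cast_abs] at h6
    exact h6

end Pool.Agent.R834.HA
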