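import Pool.Agent.R834.HA.Asym
import Pool.Agent.Results.MP_ef2672_gt.HermiteLimsup

/-!
# The upper and lower limits of `γ_n / n`
-/

set_option autoImplicit false

namespace Pool.Agent.R834.HA

open Filter Matrix Topology
open Pool.Agent.H160R3.Herm

/-- near-optimal lattices -/
theorem near_split {ε : ℝ} (hε : 0 < ε) {κ : ℝ} (hκ : 0 < κ) :
    ∃ n0 : ℕ, 0 < n0 ∧ ∀ n ≥ n0, ∀ A : Matrix (Fin n) (Fin n) ℝ, A.det ≠ 0 →
      κ * hermite n ≤ inv A →
      EntropyBound A (Real.log (limsup ratio atTop / (κ * liminf ratio atTop)) + ε) := by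
  have hbU : IsBoundedUnder (· ≤ ·) atTop ratio := isBoundedUnder_of ⟨1, ratio_le_one⟩
  have hbL : IsBoundedUnder (· ≥ ·) atTop ratio := isBoundedUnder_of ⟨0, ratio_nonneg⟩
  set u := limsup ratio atTop with hu
  set l := liminf ratio atTop with hl
  have hl0 : 0 < l := by
    have h1 : (1 / 144 : ℝ) ≤ l := by
      refine le_liminf_of_le hbU.isCoboundedUnder_ge ?_
      filter_upwards [eventually_gt_atTop 0] with n hn
      exact ratio_ge hn
    linarith
  have hu0 : 0 < u := lt_of_lt_of_le hl0 (liminf_le_limsup hbU hbL)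
  have hε3 : 0 < ε / 3 := by positivity
  have hexp : 1 < Real.exp (ε / 3) := by
    rw [Real.one_lt_exp_iff]
    exact hε3
  have hU : ∀ᶠ m : ℕ in atTop, ratio m ≤ u * Real.exp (ε / 3) := by
    have h1 : u < u * Real.exp (ε / 3) := by nlinarith
    exact (eventually_lt_of_limsup_lt h1 hbU).mono fun m hm => hm.le
  have hL : ∀ᶠ m : ℕ in atTop, l * Real.exp (-(ε / 3)) ≤ ratio m := by
    have h1 : l * Real.exp (-(ε / 3)) < l := by
      have : Real.exp (-(ε / 3)) < 1 := by
        rw [Real.exp_lt_one_iff]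
        linarith
      nlinarith
    exact (eventually_lt_of_lt_liminf h1 hbL).mono fun m hm => hm.le
  obtain ⟨n0, hn0, hc⟩ := split_asym hU hε3
  obtain ⟨n1, hn1⟩ := eventually_atTop.1 hL
  refine ⟨max n0 n1, lt_of_lt_of_le hn0 (le_max_left _ _), ?_⟩
  intro n hn A hA hκv b k hs
  have hn' : (0 : ℝ) < n := by
    have : 0 < n := lt_of_lt_of_le hn0 ((le_max_left _ _).trans hn)
    exact_mod_cast this
  have h1 := hn1 n ((le_max_right _ _).trans hn)
  have ht : (κ * (l * Real.exp (-(ε / 3)))) * n ≤ inv A := by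
    refine le_trans ?_ hκv
    rw [mul_assoc]
    refine mul_le_mul_of_nonneg_left ?_ hκ.le
    rw [ratio, le_div_iff₀ hn'] at h1
    exact h1
  have h2 := hc n ((le_max_left _ _).trans hn) A hA (κ * (l * Real.exp (-(ε / 3))))
    (by positivity) ht b k hs
  have e : Real.log (u * Real.exp (ε / 3) / (κ * (l * Real.exp (-(ε / 3))))) =
      Real.log (u / (κ * l)) + ε / 3 + ε / 3 := by
    have e1 : u * Real.exp (ε / 3) / (κ * (l * Real.exp (-(ε / 3)))) =
        u / (κ * l) * Real.exp (ε / 3) * Real.exp (ε / 3) := by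
      rw [Real.exp_neg]
      field_simp
    rw [e1, Real.log_mul (by positivity) (by positivity), Real.log_mul (by positivity) (by positivity),
      Real.log_exp]
  rw [e] at h2
  linarith

/-- lattices with Hermite invariant at least `n / (2 π e)` -/
theorem numeric_split : ∃ n0 : ℕ, 0 < n0 ∧ ∀ n ≥ n0, ∀ A : Matrix (Fin n) (Fin n) ℝ, A.det ≠ 0 →
      n / (2 * Real.pi * Real.exp 1) ≤ inv A → EntropyBound A (397 / 500 * Real.log 2) := by
  obtain ⟨C, hC, hev⟩ := Pool.Agent.Results.MP_ef2672_gt.HermiteLimsup.exists_bound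
  have hev' : ∀ᶠ m : ℕ in atTop, ratio m ≤ C := hev
  have hC0 : 0 < C := by
    obtain ⟨m, hm1, hm2⟩ := (hev'.and (eventually_gt_atTop 0)).exists
    exact lt_of_lt_of_le (ratio_pos hm2) hm1
  have hpe : 0 < 2 * Real.pi * Real.exp 1 := by positivity
  have h1 : C * (2 * Real.pi * Real.exp 1) < 4 ^ (397 / 1000 : ℝ) := by
    rwa [lt_div_iff₀ hpe] at hC
  have h2 : Real.log (C * (2 * Real.pi * Real.exp 1)) < 397 / 500 * Real.log 2 := by
    have h3 := Real.log_lt_log (by positivity) h1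
    have h4 : Real.log ((4 : ℝ) ^ (397 / 1000 : ℝ)) = 397 / 500 * Real.log 2 := by
      have h5 : (4 : ℝ) = 2 ^ (2 : ℕ) := by norm_num
      rw [Real.log_rpow (by norm_num), h5, Real.log_pow]
      push_cast
      ring
    rwa [h4] at h3
  set ε := 397 / 500 * Real.log 2 - Real.log (C * (2 * Real.pi * Real.exp 1)) with hε
  have hε0 : 0 < ε := by linarith
  obtain ⟨n0, hn0, hc⟩ := split_asym hev' hε0
  refine ⟨n0, hn0, fun n hn A hA hv b k hs => ?_⟩
  have h5 := hc n hn A hA (1 / (2 * Real.pi * Real.exp 1)) (by positivity)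
    (by rw [div_mul_eq_mul_div, one_mul]; exact hv) b k hs
  have h6 : C / (1 / (2 * Real.pi * Real.exp 1)) = C * (2 * Real.pi * Real.exp 1) := by
    field_simp
  rw [h6] at h5
  linarith

end Pool.Agent.R834.HA
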