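import Mathlib
import Pool.Agent.R402.HA.Stm

/-!
# Derivative bounds for localized mollifications
-/

open MeasureTheory Set Filter Topology
open scoped ENNReal NNReal ContDiff Convolution

namespace Pool.Agent.R834.HA
open Pool.Agent.R402.HA

variable {n : ℕ}

theorem conv_bound (k : ℕ) : ∀ (W : Type) [NormedAddCommGroup W] [NormedSpace ℝ W]
    (u : V n → ℝ) (_ : Continuous u) (g : V n → W) (_ : ContDiff ℝ ∞ g)
    (_ : HasCompactSupport g) (x : V n),
    ‖iteratedFDeriv ℝ k (fun x => ∫ y, u y • g (x - y)) x‖ ≤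
      ∫ y, |u y| * ‖iteratedFDeriv ℝ k g (x - y)‖ := by
  induction k with
  | zero =>
    intro W _ _ u hu g hg hc x
    simp only [norm_iteratedFDeriv_zero]
    refine (norm_integral_le_integral_norm _).trans (le_of_eq ?_)
    simp only [norm_smul, Real.norm_eq_abs]
  | succ k ih =>
    intro W _ _ u hu g hg hc x
    rw [← norm_iteratedFDeriv_fderiv]
    have h1 : fderiv ℝ (fun x => ∫ y, u y • g (x - y)) =
        fun x => ∫ y, u y • fderiv ℝ g (x - y) := by
      funext z
      have h := (hc.hasFDerivAt_convolution_right (ContinuousLinearMap.lsmul ℝ ℝ)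
        (μ := volume) hu.locallyIntegrable (hg.of_le (by exact_mod_cast le_top)) z).fderiv
      rw [show (fun x => ∫ y, u y • g (x - y)) =
        (u ⋆[ContinuousLinearMap.lsmul ℝ ℝ, volume] g) from rfl, h]
      rw [convolution_def]
      congr 1
    rw [h1]
    have h2 := ih (V n →L[ℝ] W) u hu (fderiv ℝ g)
      (hg.fderiv_right (by exact_mod_cast le_top)) (hc.fderiv ℝ) x
    simpa only [norm_iteratedFDeriv_fderiv] using h2

theorem conv_contDiff (u : V n → ℝ) (hu : Continuous u) (g : V n → ℝ) (hg : ContDiff ℝ ∞ g)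
    (hc : HasCompactSupport g) : ContDiff ℝ ∞ (fun x => ∫ y, u y • g (x - y)) := by
  have h := hc.contDiff_convolution_right (ContinuousLinearMap.lsmul ℝ ℝ)
        (μ := (volume : Measure (V n))) hu.locallyIntegrable hg
  exact h

/-- Scaling of the iterated derivatives. -/
theorem scale_bound (g : V n → ℝ) (hg : ContDiff ℝ ∞ g) (r : ℝ) (hr : 0 < r) (k : ℕ) (z : V n) :
    ‖iteratedFDeriv ℝ k (fun z => g (r⁻¹ • z)) z‖ ≤
      ‖iteratedFDeriv ℝ k g (r⁻¹ • z)‖ * (r⁻¹) ^ k := by
  have h := (r⁻¹ • ContinuousLinearMap.id ℝ (V n)).iteratedFDeriv_comp_right hg z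
    (i := k) (by exact_mod_cast le_top)
  have h0 : (fun z => g (r⁻¹ • z)) = g ∘ (r⁻¹ • ContinuousLinearMap.id ℝ (V n)) := by
    funext z; simp
  rw [h0, h]
  refine (ContinuousMultilinearMap.norm_compContinuousLinearMap_le _ _).trans ?_
  have h1 : ‖(r⁻¹ • ContinuousLinearMap.id ℝ (V n))‖ ≤ r⁻¹ := by
    rw [norm_smul, Real.norm_eq_abs, abs_of_pos (inv_pos.mpr hr)]
    exact mul_le_of_le_one_right (inv_pos.mpr hr).le ContinuousLinearMap.norm_id_le
  have h2 : (∏ _i : Fin k, ‖(r⁻¹ • ContinuousLinearMap.id ℝ (V n))‖) ≤ (r⁻¹) ^ k := by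
    rw [Finset.prod_const, Finset.card_univ, Fintype.card_fin]
    exact pow_le_pow_left₀ (norm_nonneg _) h1 k
  have h3 : (r⁻¹ • ContinuousLinearMap.id ℝ (V n)) z = r⁻¹ • z := by simp
  rw [h3]
  exact mul_le_mul_of_nonneg_left h2 (norm_nonneg _)

/-- The iterated derivatives of a smooth function with support in the unit ball are bounded and
vanish outside of the unit ball. -/
theorem unit_bound (g : V n → ℝ) (hg : ContDiff ℝ ∞ g)
    (hs : tsupport g ⊆ Metric.closedBall 0 1) (k : ℕ) :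
    ∃ M : ℝ, 0 ≤ M ∧ (∀ z, ‖iteratedFDeriv ℝ k g z‖ ≤ M) ∧
      ∀ z, z ∉ Metric.closedBall (0 : V n) 1 → iteratedFDeriv ℝ k g z = 0 := by
  have hc : HasCompactSupport g :=
    HasCompactSupport.of_support_subset_isCompact (isCompact_closedBall (0 : V n) 1)
      ((subset_tsupport g).trans hs)
  have hcont : Continuous (iteratedFDeriv ℝ k g) :=
    hg.continuous_iteratedFDeriv (by exact_mod_cast le_top)
  obtain ⟨M, hM⟩ := (hc.iteratedFDeriv (𝕜 := ℝ) k).exists_bound_of_continuous hcont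
  refine ⟨M, (norm_nonneg _).trans (hM 0), hM, ?_⟩
  intro z hz
  by_contra h
  exact hz (hs (support_iteratedFDeriv_subset k h))

theorem norm_stm : NormStm := by
  intro n ψ ρ hψ hρ hψs hρs i
  choose P hP0 hP hPs using fun j => unit_bound ψ hψ hψs j
  choose M hM0 hM hMs using fun j => unit_bound ρ hρ hρs j
  refine ⟨1 + ∑ j ∈ Finset.range (i + 1), (i.choose j : ℝ) * P j * M (i - j), ?_, ?_⟩
  · have : 0 ≤ ∑ j ∈ Finset.range (i + 1), (i.choose j : ℝ) * P j * M (i - j) :=
      Finset.sum_nonneg fun j _ => mul_nonneg (mul_nonneg (Nat.cast_nonneg _) (hP0 j)) (hM0 _)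
    linarith
  intro r hr x₀ u hu x
  have hri : 0 < r⁻¹ := inv_pos.mpr hr
  set I : ℝ := ∫ y in Metric.closedBall x₀ (2 * r), |u y| with hI
  have hI0 : 0 ≤ I := by
    rw [hI]; exact integral_nonneg (fun y => abs_nonneg _)
  -- the rescaled functions
  set g : V n → ℝ := fun z => ρ (r⁻¹ • z) with hgdef
  have hg : ContDiff ℝ ∞ g := hρ.comp (contDiff_id.const_smul r⁻¹)
  have hgs : ∀ k z, z ∉ Metric.closedBall (0 : V n) r → iteratedFDeriv ℝ k g z = 0 := by
    intro k z hz
    have h1 := scale_bound ρ hρ r hr k z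
    have h2 : r⁻¹ • z ∉ Metric.closedBall (0 : V n) 1 := by
      simp only [Metric.mem_closedBall, dist_zero_right, not_le] at hz ⊢
      rw [norm_smul, Real.norm_eq_abs, abs_of_pos hri]
      rw [lt_inv_mul_iff₀ hr]; simpa using hz
    rw [hMs k _ h2, norm_zero, zero_mul] at h1
    exact norm_le_zero_iff.mp h1
  have hgb : ∀ k z, ‖iteratedFDeriv ℝ k g z‖ ≤ M k * (r⁻¹) ^ k := fun k z =>
    (scale_bound ρ hρ r hr k z).trans
      (mul_le_mul_of_nonneg_right (hM k _) (pow_nonneg hri.le k))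
  have hgc : HasCompactSupport g := by
    refine HasCompactSupport.of_support_subset_isCompact (isCompact_closedBall (0 : V n) r) ?_
    intro z hz
    by_contra hz'
    have h1 := hgs 0 z hz'
    have h2 : ‖g z‖ = 0 := by rw [← norm_iteratedFDeriv_zero (𝕜 := ℝ) (f := g) (x := z), h1, norm_zero]
    exact hz (norm_eq_zero.mp h2)
  have hG : ContDiff ℝ ∞ (fun x => ∫ y, u y • g (x - y)) := conv_contDiff u hu g hg hgc
  set f : V n → ℝ := fun z => ψ (r⁻¹ • (z - x₀)) with hfdef
  have hf : ContDiff ℝ ∞ f :=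
    hψ.comp ((contDiff_id.sub contDiff_const).const_smul r⁻¹)
  have hfe : ∀ k, iteratedFDeriv ℝ k f x =
      iteratedFDeriv ℝ k (fun z => ψ (r⁻¹ • z)) (x - x₀) := by
    intro k
    have := iteratedFDeriv_comp_sub (𝕜 := ℝ) (f := fun z => ψ (r⁻¹ • z)) k x₀ x
    exact this
  have hfb : ∀ k, ‖iteratedFDeriv ℝ k f x‖ ≤ P k * (r⁻¹) ^ k := fun k => by
    rw [hfe]
    exact (scale_bound ψ hψ r hr k _).trans
      (mul_le_mul_of_nonneg_right (hP k _) (pow_nonneg hri.le k))
  have hmul := norm_iteratedFDeriv_mul_le hf hG x (n := i) (by exact_mod_cast le_top)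
  have hfun : (fun x => ψ (r⁻¹ • (x - x₀)) * ∫ y, u y * ρ (r⁻¹ • (x - y))) =
      fun y => f y * (fun x => ∫ y, u y • g (x - y)) y := by
    funext z; simp only [hfdef, hgdef, smul_eq_mul]
  rw [hfun]
  refine hmul.trans ?_
  by_cases hx : x ∈ Metric.closedBall x₀ r
  · have hGb : ∀ k, ‖iteratedFDeriv ℝ k (fun x => ∫ y, u y • g (x - y)) x‖ ≤
        M k * (r⁻¹) ^ k * I := by
      intro k
      refine (conv_bound k ℝ u hu g hg hgc x).trans ?_
      have hsub : ∀ y, y ∉ Metric.closedBall x₀ (2 * r) →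
          |u y| * ‖iteratedFDeriv ℝ k g (x - y)‖ = 0 := by
        intro y hy
        rw [hgs k (x - y), norm_zero, mul_zero]
        intro h
        apply hy
        simp only [Metric.mem_closedBall, dist_zero_right] at h hx ⊢
        have h3 : dist y x₀ ≤ dist y x + dist x x₀ := dist_triangle _ _ _
        have h4 : dist y x = ‖x - y‖ := by rw [dist_comm, dist_eq_norm]
        linarith
      rw [← setIntegral_eq_integral_of_forall_compl_eq_zero hsub, hI, ← integral_const_mul]
      refine setIntegral_mono_on ?_ ?_ Metric.isClosed_closedBall.measurableSet ?_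
      · refine ContinuousOn.integrableOn_compact (isCompact_closedBall _ _) (Continuous.continuousOn ?_)
        have hcont : Continuous (iteratedFDeriv ℝ k g) :=
          hg.continuous_iteratedFDeriv (by exact_mod_cast le_top)
        exact hu.abs.mul (hcont.comp (continuous_const.sub continuous_id)).norm
      · exact (continuous_const.mul hu.abs).continuousOn.integrableOn_compact
          (isCompact_closedBall _ _)
      · intro y _
        rw [mul_comm (|u y|)]
        exact mul_le_mul_of_nonneg_right (hgb k _) (abs_nonneg _)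
    have hsum : ∑ j ∈ Finset.range (i + 1), (i.choose j : ℝ) * ‖iteratedFDeriv ℝ j f x‖ *
        ‖iteratedFDeriv ℝ (i - j) (fun x => ∫ y, u y • g (x - y)) x‖ ≤
        ∑ j ∈ Finset.range (i + 1), ((i.choose j : ℝ) * P j * M (i - j)) * ((r⁻¹) ^ i * I) := by
      refine Finset.sum_le_sum fun j hj => ?_
      have hji : j ≤ i := Nat.lt_succ_iff.mp (Finset.mem_range.mp hj)
      have e1 : (r⁻¹) ^ i = (r⁻¹) ^ j * (r⁻¹) ^ (i - j) := by
        rw [← pow_add, Nat.add_sub_cancel' hji]
      have e2 : (i.choose j : ℝ) * P j * M (i - j) * ((r⁻¹) ^ i * I) =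
          ((i.choose j : ℝ) * (P j * (r⁻¹) ^ j)) * (M (i - j) * (r⁻¹) ^ (i - j) * I) := by
        rw [e1]; ring
      rw [e2]
      refine mul_le_mul (mul_le_mul_of_nonneg_left (hfb j) (Nat.cast_nonneg _)) (hGb _)
        (norm_nonneg _) ?_
      exact mul_nonneg (Nat.cast_nonneg _) (mul_nonneg (hP0 j) (pow_nonneg hri.le _))
    refine hsum.trans ?_
    rw [← Finset.sum_mul, mul_assoc (1 + _), add_mul, one_mul]
    have : 0 ≤ (r⁻¹) ^ i * I := mul_nonneg (pow_nonneg hri.le _) hI0
    linarith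
  · have hz : ∀ j, iteratedFDeriv ℝ j f x = 0 := by
      intro j
      rw [hfe]
      have h1 := scale_bound ψ hψ r hr j (x - x₀)
      have h2 : r⁻¹ • (x - x₀) ∉ Metric.closedBall (0 : V n) 1 := by
        simp only [Metric.mem_closedBall, dist_eq_norm, not_le, sub_zero] at hx ⊢
        rw [norm_smul, Real.norm_eq_abs, abs_of_pos hri]
        rw [lt_inv_mul_iff₀ hr]; simpa using hx
      rw [hPs j _ h2, norm_zero, zero_mul] at h1
      exact norm_le_zero_iff.mp h1
    have h0 : ∑ j ∈ Finset.range (i + 1), (i.choose j : ℝ) * ‖iteratedFDeriv ℝ j f x‖ *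
        ‖iteratedFDeriv ℝ (i - j) (fun x => ∫ y, u y • g (x - y)) x‖ = 0 := by
      refine Finset.sum_eq_zero fun j _ => ?_
      rw [hz j, norm_zero, mul_zero, zero_mul]
    rw [h0]
    have hS : 0 ≤ ∑ j ∈ Finset.range (i + 1), (i.choose j : ℝ) * P j * M (i - j) :=
      Finset.sum_nonneg fun j _ => mul_nonneg (mul_nonneg (Nat.cast_nonneg _) (hP0 j)) (hM0 _)
    exact mul_nonneg (mul_nonneg (by linarith) (pow_nonneg hri.le _)) hI0

end Pool.Agent.R834.HA
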