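import Pool.Agent.R834.HA.Geo
import Pool.Agent.R834.HA.Det

/-!
# Automorphisms of prime order
-/

set_option autoImplicit false

namespace Pool.Agent.R834.HA

open Matrix Module
open Pool.Agent.H160R3.Herm

/-- `Q` is an automorphism of the lattice `A ℤⁿ`: an orthogonal matrix that maps the lattice into
itself (and hence onto itself). -/
def IsAuto {n : ℕ} (A Q : Matrix (Fin n) (Fin n) ℝ) : Prop :=
  Q ∈ Matrix.orthogonalGroup (Fin n) ℝ ∧
    ∃ U : Matrix (Fin n) (Fin n) ℤ, Q * A = A * U.map (fun z : ℤ => (z : ℝ))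

/-- the ring homomorphism from integral to real matrices -/
noncomputable def cst (n : ℕ) : Matrix (Fin n) (Fin n) ℤ →+* Matrix (Fin n) (Fin n) ℝ :=
  (Int.castRingHom ℝ).mapMatrix

theorem cst_apply {n : ℕ} (U : Matrix (Fin n) (Fin n) ℤ) :
    cst n U = U.map (fun z : ℤ => (z : ℝ)) := rfl

theorem cst_injective (n : ℕ) : Function.Injective (cst n) := by
  intro U V h
  ext i j
  have h1 := congrFun (congrFun h i) j
  have h2 : ((U i j : ℤ) : ℝ) = ((V i j : ℤ) : ℝ) := h1
  exact_mod_cast h2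

theorem pow_conj {n : ℕ} {A Q V : Matrix (Fin n) (Fin n) ℝ} (h : Q * A = A * V) (i : ℕ) :
    Q ^ i * A = A * V ^ i := by
  induction i with
  | zero => simp
  | succ i ih => rw [pow_succ, mul_assoc, h, ← mul_assoc, ih, mul_assoc, ← pow_succ]

theorem pow_eq_one {n : ℕ} {A Q : Matrix (Fin n) (Fin n) ℝ} (hA : A.det ≠ 0)
    {U : Matrix (Fin n) (Fin n) ℤ} (h : Q * A = A * cst n U) {p : ℕ} (hp : Q ^ p = 1) :
    U ^ p = 1 := by
  have h1 := pow_conj h p
  rw [hp, one_mul, ← map_pow] at h1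
  have h2 : IsUnit A := by
    rw [isUnit_iff_isUnit_det]
    exact isUnit_iff_ne_zero.2 hA
  have h3 : A * cst n (U ^ p) = A * 1 := by rw [← h1, mul_one]
  have h4 := h2.mul_left_cancel h3
  apply cst_injective n
  rw [h4, map_one]

theorem prime_one {n : ℕ} (A Q : Matrix (Fin n) (Fin n) ℝ) (hA : A.det ≠ 0)
    (hQ : IsAuto A Q) {p : ℕ} (hp : p.Prime) (hQp : Q ^ p = 1) :
    ∃ k : ℕ, k ^ (p - 1) ≤ p ^ (1 - Q).rank ∧ SplitsInto A (1 - Q).rank k := by
  obtain ⟨hO, U, hU⟩ := hQ
  have hUp : U ^ p = 1 := pow_eq_one hA hU hQp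
  have hF : (1 - Q) * A = A * (1 - U).map (fun z : ℤ => (z : ℝ)) := by
    rw [← cst_apply, map_sub, map_one, sub_mul, mul_sub, one_mul, mul_one, hU, cst_apply]
  have hker : ∀ x, (1 - Q).mulVec x = 0 → (1 - Q)ᵀ.mulVec x = 0 := by
    intro x hx
    rw [sub_mulVec, one_mulVec, sub_eq_zero] at hx
    rw [transpose_sub, transpose_one, sub_mulVec, one_mulVec, sub_eq_zero]
    have h1 : Qᵀ * Q = 1 := (Matrix.mem_orthogonalGroup_iff' (Fin n) ℝ).1 hO
    calc x = (Qᵀ * Q).mulVec x := by rw [h1, one_mulVec]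
      _ = Qᵀ.mulVec x := by rw [← mulVec_mulVec, ← hx]
  obtain ⟨hd, hr, -, hi⟩ := endo_ineq A (1 - Q) hA (1 - U) hF hker
  set T := Matrix.toLin' (1 - U) with hT
  have hTa : ∀ w, T w = w - U.mulVec w := fun w => by
    rw [hT, toLin'_apply, sub_mulVec, one_mulVec]
  refine ⟨(LinearMap.det (onRange T)).natAbs, ?_, ?_⟩
  · set g : LinearMap.range T →ₗ[ℤ] LinearMap.range T := 1 - onRange T with hg
    have h1 : 1 - g = onRange T := by rw [hg, sub_sub_cancel]
    have hgp : ∀ (i : ℕ) (y : LinearMap.range T),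
        (((g ^ i) y : LinearMap.range T) : Fin n → ℤ) = (U ^ i).mulVec y.1 := by
      intro i
      induction i with
      | zero =>
        intro y
        simp
      | succ i ih =>
        intro y
        rw [pow_succ', Module.End.mul_apply, pow_succ', ← mulVec_mulVec, ← ih]
        have h2 : ((g ((g ^ i) y) : LinearMap.range T) : Fin n → ℤ) =
            (((g ^ i) y : LinearMap.range T) : Fin n → ℤ) -
              T (((g ^ i) y : LinearMap.range T) : Fin n → ℤ) := by
          rw [hg]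
          rfl
        rw [h2, hTa, sub_sub_cancel]
    have hs : ∑ i ∈ Finset.range p, g ^ i = 0 := by
      apply LinearMap.ext
      intro y
      apply Subtype.ext
      obtain ⟨z, hz⟩ := y.2
      have h2 : ((((∑ i ∈ Finset.range p, g ^ i) y : LinearMap.range T)) : Fin n → ℤ) =
          ∑ i ∈ Finset.range p, (U ^ i).mulVec y.1 := by
        rw [LinearMap.sum_apply, Submodule.coe_sum]
        exact Finset.sum_congr rfl fun i _ => hgp i y
      have hTz : T z = (1 - U).mulVec z := toLin'_apply _ _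
      rw [h2, ← hz, hTz]
      have h3 : ∑ i ∈ Finset.range p, (U ^ i).mulVec ((1 - U).mulVec z) =
          ((∑ i ∈ Finset.range p, U ^ i) * (1 - U)).mulVec z := by
        rw [Finset.sum_mul, Matrix.sum_mulVec]
        exact Finset.sum_congr rfl fun i _ => by rw [mulVec_mulVec]
      rw [h3, geom_sum_mul_neg, hUp, sub_self, zero_mulVec]
      rfl
    have h2 := det_bound g hp hs
    rw [h1, hr] at h2
    exact h2
  · rw [Nat.cast_natAbs, Int.cast_abs]
    exact hi

theorem prime_two {n : ℕ} (A Q : Matrix (Fin n) (Fin n) ℝ) (hA : A.det ≠ 0)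
    (hQ : IsAuto A Q) {p : ℕ} (hp : p.Prime) (hQp : Q ^ p = 1) :
    SplitsInto A (n - (1 - Q).rank) ((p : ℝ) ^ (n - (1 - Q).rank)) := by
  obtain ⟨hO, U, hU⟩ := hQ
  have hUp : U ^ p = 1 := pow_eq_one hA hU hQp
  set F : Matrix (Fin n) (Fin n) ℝ := ∑ i ∈ Finset.range p, Q ^ i with hFd
  set V : Matrix (Fin n) (Fin n) ℤ := ∑ i ∈ Finset.range p, U ^ i with hVd
  have hF : F * A = A * V.map (fun z : ℤ => (z : ℝ)) := by
    rw [← cst_apply, hVd, hFd, map_sum, Finset.sum_mul, Finset.mul_sum]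
    refine Finset.sum_congr rfl fun i _ => ?_
    rw [map_pow]
    exact pow_conj hU i
  have h1 : Qᵀ * Q = 1 := (Matrix.mem_orthogonalGroup_iff' (Fin n) ℝ).1 hO
  have hFQ : (1 - Q) * F = 0 := by
    rw [hFd, mul_neg_geom_sum, hQp, sub_self]
  have hQF : Q * F = F := by
    rw [sub_mul, one_mul, sub_eq_zero] at hFQ
    exact hFQ.symm
  have hQtF : Qᵀ * F = F := by
    calc Qᵀ * F = Qᵀ * (Q * F) := by rw [hQF]
      _ = F := by rw [← mul_assoc, h1, one_mul]
  have hpow : ∀ i : ℕ, Q ^ i * F = F := by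
    intro i
    induction i with
    | zero => simp
    | succ i ih => rw [pow_succ, mul_assoc, hQF, ih]
  have hpowt : ∀ i : ℕ, (Qᵀ) ^ i * F = F := by
    intro i
    induction i with
    | zero => simp
    | succ i ih => rw [pow_succ, mul_assoc, hQtF, ih]
  have hp0 : (p : ℝ) ≠ 0 := by exact_mod_cast hp.ne_zero
  have hFtF : Fᵀ * F = (p : ℝ) • F := by
    have h2 : Fᵀ = ∑ i ∈ Finset.range p, (Qᵀ) ^ i := by
      rw [hFd, transpose_sum]
      exact Finset.sum_congr rfl fun i _ => transpose_pow _ _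
    rw [h2, Finset.sum_mul, Finset.sum_congr rfl fun i _ => hpowt i, Finset.sum_const,
      Finset.card_range, ← Nat.cast_smul_eq_nsmul ℝ]
  have hFt : Fᵀ = F := by
    have h2 : (Fᵀ * F)ᵀ = Fᵀ * F := by rw [transpose_mul, transpose_transpose]
    rw [hFtF, transpose_smul] at h2
    exact smul_right_injective _ hp0 h2
  have hker : ∀ x, F.mulVec x = 0 → Fᵀ.mulVec x = 0 := fun x hx => by rw [hFt, hx]
  obtain ⟨hd, hr, -, hi⟩ := endo_ineq A F hA V hF hker
  -- the rank
  have hrk : F.rank = n - (1 - Q).rank := by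
    have h2 : LinearMap.range (Matrix.toLin' F) = LinearMap.ker (Matrix.toLin' (1 - Q)) := by
      apply le_antisymm
      · rintro _ ⟨x, rfl⟩
        rw [LinearMap.mem_ker, toLin'_apply, toLin'_apply, mulVec_mulVec, hFQ, zero_mulVec]
      · intro x hx
        rw [LinearMap.mem_ker, toLin'_apply, sub_mulVec, one_mulVec, sub_eq_zero] at hx
        have h3 : ∀ i : ℕ, (Q ^ i).mulVec x = x := by
          intro i
          induction i with
          | zero => simp
          | succ i ih => rw [pow_succ, ← mulVec_mulVec, ← hx, ih]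
        have h4 : F.mulVec x = (p : ℝ) • x := by
          rw [hFd, Matrix.sum_mulVec, Finset.sum_congr rfl fun i _ => h3 i, Finset.sum_const,
            Finset.card_range, ← Nat.cast_smul_eq_nsmul ℝ]
        refine ⟨(p : ℝ)⁻¹ • x, ?_⟩
        rw [toLin'_apply, mulVec_smul, h4, inv_smul_smul₀ hp0]
    have h5 : F.rank = finrank ℝ (LinearMap.range (Matrix.toLin' F)) := rfl
    have h6 : (1 - Q).rank = finrank ℝ (LinearMap.range (Matrix.toLin' (1 - Q))) := rfl
    have h7 := LinearMap.finrank_range_add_finrank_ker (Matrix.toLin' (1 - Q))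
    rw [finrank_fin_fun, ← h2, ← h5, ← h6] at h7
    omega
  have hle : (1 - Q).rank ≤ n := by
    have := Matrix.rank_le_width (1 - Q)
    exact this
  -- the determinant
  set T := Matrix.toLin' V with hT
  have hUV : U * V = V := by
    have h2 : (1 - U) * V = 0 := by rw [hVd, mul_neg_geom_sum, hUp, sub_self]
    rw [sub_mul, one_mul, sub_eq_zero] at h2
    exact h2.symm
  have hUVp : ∀ i : ℕ, U ^ i * V = V := by
    intro i
    induction i with
    | zero => simp
    | succ i ih => rw [pow_succ, mul_assoc, hUV, ih]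
  have hVV : V * V = (p : ℤ) • V := by
    have h2 : V * V = ∑ i ∈ Finset.range p, U ^ i * V := by
      rw [← Finset.sum_mul]
    rw [h2, Finset.sum_congr rfl fun i _ => hUVp i, Finset.sum_const, Finset.card_range,
      ← Nat.cast_smul_eq_nsmul ℤ]
  have hon : onRange T = (p : ℤ) • (1 : LinearMap.range T →ₗ[ℤ] LinearMap.range T) := by
    apply LinearMap.ext
    intro y
    apply Subtype.ext
    obtain ⟨z, hz⟩ := y.2
    rw [coe_onRange]
    have h2 : (((((p : ℤ) • (1 : LinearMap.range T →ₗ[ℤ] LinearMap.range T)) y :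
        LinearMap.range T)) : Fin n → ℤ) = (p : ℤ) • y.1 := rfl
    rw [h2, ← hz, hT, toLin'_apply, toLin'_apply, mulVec_mulVec, hVV, smul_mulVec]
  have hdet : LinearMap.det (onRange T) = (p : ℤ) ^ (n - (1 - Q).rank) := by
    rw [hon, LinearMap.det_smul, map_one, mul_one, hr, hrk]
  rw [hdet, hrk] at hi
  push_cast at hi
  rw [abs_of_pos (by positivity)] at hi
  exact hi

end Pool.Agent.R834.HA
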