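import Pool.Agent.H160R3.Herm.Main

/-!
# Orthogonal splittings of sublattices and Hermite's constants
-/

set_option autoImplicit false

namespace Pool.Agent.R834.HA

open Matrix
open Pool.Agent.H160R3.Herm

/-- The Hermite invariant of the lattice `A ℤⁿ`. -/
noncomputable def inv {n : ℕ} (A : Matrix (Fin n) (Fin n) ℝ) : ℝ :=
  minSq A / |A.det| ^ ((2 : ℝ) / (n : ℝ))

theorem inv_nonneg {n : ℕ} (A : Matrix (Fin n) (Fin n) ℝ) : 0 ≤ inv A :=
  div_nonneg (minSq_nonneg A) (Real.rpow_nonneg (abs_nonneg _) _)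

theorem inv_pow {n : ℕ} (hn : 0 < n) {A : Matrix (Fin n) (Fin n) ℝ} (hA : A.det ≠ 0) :
    inv A ^ n * A.det ^ 2 = minSq A ^ n := by
  have hd : 0 < |A.det| := abs_pos.2 hA
  unfold inv
  rw [pow_value hn _ _ hd, sq_abs, div_mul_cancel₀ _ (pow_ne_zero 2 hA)]

theorem sum_sq {n m : Type} [Fintype n] [Fintype m] (C : Matrix n m ℝ) (w : m → ℝ) :
    ∑ i, (C.mulVec w) i ^ 2 = w ⬝ᵥ ((Cᵀ * C).mulVec w) := by
  rw [← mulVec_mulVec, dotProduct_mulVec, vecMul_transpose]
  simp [dotProduct, sq]

/-- Hermite's constant bounds the minimum of a positive definite form -/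
theorem gram_fin {m : ℕ} (G : Matrix (Fin m) (Fin m) ℝ) (hG : G.PosDef) (μ : ℝ) (hμ : 0 ≤ μ)
    (h : ∀ w : Fin m → ℤ, w ≠ 0 → μ ≤ (fun j => (w j : ℝ)) ⬝ᵥ G.mulVec (fun j => (w j : ℝ))) :
    μ ^ m ≤ hermite m ^ m * G.det := by
  rcases Nat.eq_zero_or_pos m with rfl | hm
  · simp
  open scoped MatrixOrder in
  obtain ⟨C, rfl⟩ := CStarAlgebra.nonneg_iff_eq_star_mul_self.mp hG.posSemidef.nonneg
  have hstar : star C = Cᵀ := by
    ext i j
    simp [Matrix.star_apply]
  rw [hstar] at hG h ⊢
  have hdet : (Cᵀ * C).det = C.det ^ 2 := by rw [det_mul, det_transpose, sq]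
  have hd : C.det ≠ 0 := by
    intro h0
    have := hG.det_pos
    rw [hdet, h0] at this
    simp at this
  have h1 : μ ≤ minSq C := by
    refine le_minSq hm C μ fun w hw => ?_
    rw [sum_sq]
    exact h w hw
  have h2 := le_hermite hm C hd
  have h3 : minSq C ^ m ≤ hermite m ^ m * C.det ^ 2 := by
    rw [← inv_pow hm hd]
    exact mul_le_mul_of_nonneg_right (pow_le_pow_left₀ (inv_nonneg C) h2 m) (sq_nonneg _)
  rw [hdet]
  exact (pow_le_pow_left₀ hμ h1 m).trans h3

theorem gram {κ : Type} [Fintype κ] [DecidableEq κ] (G : Matrix κ κ ℝ) (hG : G.PosDef) (μ : ℝ)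
    (hμ : 0 ≤ μ)
    (h : ∀ w : κ → ℤ, w ≠ 0 → μ ≤ (fun j => (w j : ℝ)) ⬝ᵥ G.mulVec (fun j => (w j : ℝ))) :
    μ ^ Fintype.card κ ≤ hermite (Fintype.card κ) ^ Fintype.card κ * G.det := by
  let e : Fin (Fintype.card κ) ≃ κ := (Fintype.equivFin κ).symm
  have h1 := gram_fin (G.submatrix e e) (hG.submatrix e.injective) μ hμ (by
    intro w hw
    have h2 := h (w ∘ e.symm) (by
      intro h0
      apply hw
      funext i
      have := congrFun h0 (e i)
      simpa using this)
    refine h2.trans (le_of_eq ?_)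
    simp only [dotProduct, mulVec, submatrix_apply]
    rw [← Equiv.sum_comp e]
    refine Finset.sum_congr rfl fun i _ => ?_
    rw [← Equiv.sum_comp e]
    simp)
  rwa [det_submatrix_equiv_self] at h1

/-- the number of columns of colour `i` -/
noncomputable def dims {n r : ℕ} (blk : Fin n → Fin r) (i : Fin r) : ℕ :=
  Fintype.card {x : Fin n // blk x = i}

theorem sum_dims {n r : ℕ} (blk : Fin n → Fin r) : ∑ i, dims blk i = n := by
  have h := Fintype.card_congr (Equiv.sigmaFiberEquiv blk)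
  rw [Fintype.card_sigma, Fintype.card_fin] at h
  exact h

/-- **Splittings.** -/
theorem split_ineq {n r : ℕ} (hn : 0 < n) (A : Matrix (Fin n) (Fin n) ℝ) (hA : A.det ≠ 0)
    (B : Matrix (Fin n) (Fin n) ℤ) (hB : B.det ≠ 0) (blk : Fin n → Fin r)
    (horth : ∀ x y, blk x ≠ blk y →
      ((A * B.map (fun z : ℤ => (z : ℝ)))ᵀ * (A * B.map (fun z : ℤ => (z : ℝ)))) x y = 0) :
    inv A ^ n ≤ (B.det : ℝ) ^ 2 * ∏ i, hermite (dims blk i) ^ dims blk i := by
  classical
  set B' : Matrix (Fin n) (Fin n) ℝ := B.map (fun z : ℤ => (z : ℝ)) with hB'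
  set D := A * B' with hD
  set G := Dᵀ * D with hG
  have hBd : B'.det = (B.det : ℝ) := by
    have := (Int.castRingHom ℝ).map_det B
    rw [hB']
    exact this.symm
  have hBd0 : B'.det ≠ 0 := by
    rw [hBd]
    exact_mod_cast hB
  have hDd : D.det ≠ 0 := by
    rw [hD, det_mul]
    exact mul_ne_zero hA hBd0
  have hGd : G.det = A.det ^ 2 * (B.det : ℝ) ^ 2 := by
    rw [hG, det_mul, det_transpose, hD, det_mul, hBd]
    ring
  have hinj : Function.Injective D.mulVec := by
    rw [mulVec_injective_iff_isUnit, isUnit_iff_isUnit_det]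
    exact isUnit_iff_ne_zero.2 hDd
  have hpos : G.PosDef := by
    have h1 := PosDef.conjTranspose_mul_self D hinj
    have h2 : Dᴴ = Dᵀ := by
      ext i j
      simp
    rw [h2] at h1
    exact h1
  have hBT : G.BlockTriangular blk := fun i j hij => horth i j hij.ne'
  have hdet : G.det = ∏ k, (G.toSquareBlock blk k).det := hBT.det_fintype
  have hblock : ∀ k : Fin r, minSq A ^ dims blk k ≤
      hermite (dims blk k) ^ dims blk k * (G.toSquareBlock blk k).det := by
    intro k
    refine gram (G.toSquareBlock blk k) (hpos.submatrix Subtype.val_injective) (minSq A)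
      (minSq_nonneg A) fun w hw => ?_
    set w' : Fin n → ℤ := fun x => if hx : blk x = k then w ⟨x, hx⟩ else 0 with hw'
    have hw0 : w' ≠ 0 := by
      intro h0
      apply hw
      funext x
      have := congrFun h0 x.1
      rw [hw'] at this
      simp only [x.2, dif_pos] at this
      simpa using this
    have hBw : B.mulVec w' ≠ 0 := by
      intro h0
      apply hw0
      exact Matrix.eq_zero_of_mulVec_eq_zero hB h0
    have h1 := minSq_le A (B.mulVec w') hBw
    refine h1.trans (le_of_eq ?_)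
    have e1 : (fun j => ((B.mulVec w') j : ℝ)) = B'.mulVec (fun j => (w' j : ℝ)) := by
      funext j
      simp [hB', mulVec, dotProduct]
    rw [e1, mulVec_mulVec, ← hD, sum_sq, ← hG]
    have e2 : ∀ f : Fin n → ℝ, ∑ x, ((w' x : ℤ) : ℝ) * f x =
        ∑ x : {x // blk x = k}, (w x : ℝ) * f x.1 := by
      intro f
      have e3 : ∑ x, ((w' x : ℤ) : ℝ) * f x =
          ∑ x ∈ Finset.univ.filter (fun x => blk x = k), ((w' x : ℤ) : ℝ) * f x := by
        rw [Finset.sum_filter]
        refine Finset.sum_congr rfl fun x _ => ?_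
        by_cases hx : blk x = k
        · rw [if_pos hx]
        · rw [if_neg hx, hw']
          simp [hx]
      rw [e3, Finset.sum_subtype (Finset.univ.filter (fun x => blk x = k)) (p := fun x => blk x = k)
        (fun x => by simp)]
      refine Finset.sum_congr rfl fun x _ => ?_
      rw [hw']
      simp [x.2]
    have e4 : ∀ x, (G.mulVec (fun j => (w' j : ℝ))) x =
        ∑ y : {x // blk x = k}, (w y : ℝ) * G x y.1 := by
      intro x
      rw [← e2]
      simp only [mulVec, dotProduct]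
      exact Finset.sum_congr rfl fun y _ => mul_comm _ _
    change ∑ x, ((w' x : ℤ) : ℝ) * (G.mulVec (fun j => (w' j : ℝ))) x = _
    rw [e2]
    refine Finset.sum_congr rfl fun x _ => ?_
    rw [e4]
    congr 1
    simp only [mulVec, dotProduct]
    exact Finset.sum_congr rfl fun y _ => mul_comm _ _
  have hprod : minSq A ^ n ≤ (∏ i, hermite (dims blk i) ^ dims blk i) * G.det := by
    calc minSq A ^ n = ∏ k, minSq A ^ dims blk k := by
          rw [Finset.prod_pow_eq_pow_sum, sum_dims]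
      _ ≤ ∏ k, (hermite (dims blk k) ^ dims blk k * (G.toSquareBlock blk k).det) :=
          Finset.prod_le_prod (fun k _ => pow_nonneg (minSq_nonneg A) _) fun k _ => hblock k
      _ = _ := by rw [Finset.prod_mul_distrib, hdet]
  have hA2 : 0 < A.det ^ 2 := by positivity
  have h5 : inv A ^ n * A.det ^ 2 ≤
      ((B.det : ℝ) ^ 2 * ∏ i, hermite (dims blk i) ^ dims blk i) * A.det ^ 2 := by
    rw [inv_pow hn hA]
    refine hprod.trans (le_of_eq ?_)
    rw [hGd]
    ring
  exact le_of_mul_le_mul_right h5 hA2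

/-- The lattice `A ℤⁿ` has a sublattice of index `k` which is the orthogonal sum of two lattices, the
second one of dimension `b`: the columns of the integral matrix `B` are the coordinates of a basis of
the sublattice, and columns of different colours are orthogonal. -/
def SplitsInto {n : ℕ} (A : Matrix (Fin n) (Fin n) ℝ) (b : ℕ) (k : ℝ) : Prop :=
  ∃ (B : Matrix (Fin n) (Fin n) ℤ) (blk : Fin n → Fin 2), B.det ≠ 0 ∧
    (∀ x y, blk x ≠ blk y →
      ((A * B.map (fun z : ℤ => (z : ℝ)))ᵀ * (A * B.map (fun z : ℤ => (z : ℝ)))) x y = 0) ∧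
    dims blk 1 = b ∧ |(B.det : ℝ)| = k

theorem SplitsInto.ineq {n : ℕ} (hn : 0 < n) {A : Matrix (Fin n) (Fin n) ℝ} (hA : A.det ≠ 0)
    {b : ℕ} {k : ℝ} (h : SplitsInto A b k) : 0 < k ∧ b ≤ n ∧
      inv A ^ n ≤ k ^ 2 * (hermite (n - b) ^ (n - b) * hermite b ^ b) := by
  obtain ⟨B, blk, hB, horth, hd, hk⟩ := h
  have hsum := sum_dims blk
  rw [Fin.sum_univ_two, hd] at hsum
  have hd0 : dims blk 0 = n - b := by omega
  have h3 := split_ineq hn A hA B hB blk horth
  rw [Fin.prod_univ_two, ← sq_abs, hk, hd0, hd] at h3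
  refine ⟨?_, by omega, h3⟩
  rw [← hk]
  exact abs_pos.2 (by exact_mod_cast hB)

end Pool.Agent.R834.HA
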